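import Pool.Agent.Lib.PY.Main

/-!
# MP_9b69f3_an: a nonseparable space with the Radon–Nikodym property without infinite dimensional
separable complemented subspaces (a negative answer to the question of Plichko and Yost)
-/

namespace Pool.Agent.Results.MP_9b69f3_an.NoComplementedSeparable

/-- A slice of `A`: a nonempty intersection of `A` with an open half space `{x | c < f x}`. -/
def IsSlice {X : Type} [NormedAddCommGroup X] [NormedSpace ℝ X] (A S : Set X) : Prop :=
  S.Nonempty ∧ ∃ (f : X →L[ℝ] ℝ) (c : ℝ), S = A ∩ {x | c < f x}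

/-- A (bounded) set is dentable if it has slices of arbitrarily small diameter. -/
def IsDentable {X : Type} [NormedAddCommGroup X] [NormedSpace ℝ X] (A : Set X) : Prop :=
  ∀ ε : ℝ, 0 < ε → ∃ S : Set X, IsSlice A S ∧ ∀ x ∈ S, ∀ y ∈ S, ‖x - y‖ ≤ ε

/-- The Radon–Nikodym property: every nonempty bounded set is dentable. -/
def HasRNP (X : Type) [NormedAddCommGroup X] [NormedSpace ℝ X] : Prop :=
  ∀ A : Set X, A.Nonempty → (∃ C : ℝ, ∀ x ∈ A, ‖x‖ ≤ C) → IsDentable A

/-- There is a nonseparable real Banach space `X` with the Radon–Nikodym property such that every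
projection on `X` (bounded linear operator `P` with `P² = P`) with separable range has finite
rank. -/
theorem result : ∃ (X : Type) (_ : NormedAddCommGroup X) (_ : NormedSpace ℝ X),
    CompleteSpace X ∧ ¬ TopologicalSpace.SeparableSpace X ∧ HasRNP X ∧
      ∀ P : X →L[ℝ] X, P ∘L P = P →
        TopologicalSpace.IsSeparable (LinearMap.range (P : X →ₗ[ℝ] X) : Set X) →
        FiniteDimensional ℝ (LinearMap.range (P : X →ₗ[ℝ] X)) := by
  obtain ⟨X, i1, i2, i3, hns, hrnp, hP⟩ := Pool.Agent.PY.main
  refine ⟨X, i1, i2, i3, hns, ?_, ?_⟩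
  · intro A hA hb ε hε
    obtain ⟨C, hC⟩ := hb
    have hb' : Bornology.IsBounded A := by
      refine (Metric.isBounded_closedBall (x := (0 : X)) (r := C)).subset ?_
      intro x hx
      simpa [dist_eq_norm] using hC x hx
    obtain ⟨f, c, hne, hd⟩ := hrnp A hA hb' ε hε
    refine ⟨A ∩ {x | c < f x}, ⟨hne, f, c, rfl⟩, ?_⟩
    intro x hx y hy
    have := Metric.dist_le_diam_of_mem (hb'.subset Set.inter_subset_left) hx hy
    rw [← dist_eq_norm]
    linarith
  · intro P hPP hs
    refine hP P (fun x => ?_) ?_
    · have := congrArg (fun Q : X →L[ℝ] X => Q x) hPP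
      simpa using this
    · simpa [LinearMap.coe_range] using hs

end Pool.Agent.Results.MP_9b69f3_an.NoComplementedSeparable
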